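import Pool.Agent.PFO.Cheb4

/-!
# MP_29b621_nt: for almost all starting points almost all terms of the orbit have many prime
divisors

`f^n(x)` is `(fun z : ℤ => f.eval z)^[n] x`. The definitions are in `Pool/Agent/PFO/Defs.lean` and
`Pool/Agent/PFO/DefsG.lean`.

(1) If the sum of `1 / q` over the primes `q` that divide one of the numbers `f^k(0)`, `k ≥ 1`, is
infinite, then for all `K` and `ε` there are `M`, `N0` and at least `(1 - ε) M` residue classes
modulo `M` such that for every `x` in these classes and every `N ≥ N0` at most `ε N` of the `n < N`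
are such that `f^n(x)` has fewer than `K` distinct prime divisors.

The hypothesis is satisfied by (2) all integer polynomials that are compositions of linear
polynomials over the rationals, powers `x ^ d` with `d` odd and Dickson polynomials of degree prime
to `6`, (3) all polynomials `(x + a) ^ d - a` with `a ≥ 1` (where
`f^n(x) = (x + a) ^ (d ^ n) - a`), (4) all polynomials `D_d(x + s, 1) - s` with `s ≥ 3` (where
`f^n(x) = D_{d^n}(x + s, 1) - s`), (5) all polynomials `(x - c) ^ d + c` with `c, d ≥ 1` such that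
`c` is not a fourth power and no odd prime divides both `c` and `d` (where
`f^n(x) = (x - c) ^ (d ^ n) + c`) and (6) all polynomials `D_d(x - s, 1) + s` with `s ≥ 3`, `d ≥ 1`
such that `s` is not of the form `(r ^ 2 - 2) ^ 2 - 2` and no odd prime divides both `d` and
`s ^ 2 - 4` (where `f^n(x) = D_{d^n}(x - s, 1) + s`).
-/

open Polynomial Pool.Agent.PFO

namespace Pool.Agent.Results.MP_29b621_nt.AlmostAllStarts

theorem result :
    (∀ f : ℤ[X], Good f → ∀ (K : ℕ) (ε : ℝ), 0 < ε →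
      ∃ (M : ℕ) (R : Finset (ZMod M)) (N0 : ℕ), 0 < M ∧ (1 - ε) * M ≤ (R.card : ℝ) ∧
        ∀ x : ℤ, (x : ZMod M) ∈ R → ∀ N : ℕ, N0 ≤ N →
          ((Set.ncard {n : ℕ | n < N ∧ ¬ ManyPrimes K ((fun z : ℤ => f.eval z)^[n] x)} : ℕ) : ℝ) ≤
            ε * N) ∧
    (∀ f : ℤ[X], Composed f → Good f) ∧
    (∀ a d : ℕ, 0 < a → 0 < d → Good ((X + C (a : ℤ)) ^ d - C (a : ℤ))) ∧
    (∀ s d : ℕ, 3 ≤ s → 0 < d →
      Good ((dickson 1 (1 : ℤ) d).comp (X + C (s : ℤ)) - C (s : ℤ))) ∧
    (∀ c d : ℕ, 0 < c → 0 < d → (∀ t : ℕ, c ≠ t ^ 4) →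
      (∀ p : ℕ, p.Prime → p ∣ c → p ∣ d → p = 2) → Good ((X - C (c : ℤ)) ^ d + C (c : ℤ))) ∧
    ∀ s d : ℕ, 3 ≤ s → 0 < d → (∀ r t : ℕ, t + 2 = r ^ 2 → s + 2 ≠ t ^ 2) →
      (∀ p : ℕ, p.Prime → p ∣ d → p ∣ s ^ 2 - 4 → p = 2) →
      Good ((dickson 1 (1 : ℤ) d).comp (X - C (s : ℤ)) + C (s : ℤ)) :=
  ⟨fun f hf K ε hε => almost_all_good f hf K ε hε,
    fun _ hf => (composed_permutes hf).zeroPeriodic.good,
    fun a d ha hd => (shift_zeroPeriodic a d ha hd).good,
    fun s d hs hd => (cheb_zeroPeriodic s d hs hd).good,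
    fun c d hc hd h4 hcd => (power_zeroPeriodic c d hc hd h4 hcd).good,
    fun s d hs hd hr hcd => (cheb4_zeroPeriodic s d hs hd hr hcd).good⟩

end Pool.Agent.Results.MP_29b621_nt.AlmostAllStarts
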