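import Pool.Agent.ODy.Avg

/-!
MP_29b621_nt (primes in integer orbits of polynomials): for every starting point, the primes in the
orbit have upper density `O(1 / log H)` on average over the polynomials of degree at most `d` and
height at most `H`.
-/

set_option autoImplicit false

namespace Pool.Agent.Results.MP_29b621_nt.OrbitDensity

open Finset Filter

/-- The integer polynomial with coefficients `c 0, ..., c d`. -/
noncomputable def poly {d : ℕ} (c : Fin (d + 1) → ℤ) : Polynomial ℤ :=
  ∑ i : Fin (d + 1), Polynomial.monomial (i : ℕ) (c i)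

/-- The n-th iterate `f^n(α)`. -/
def iter (f : Polynomial ℤ) (α : ℤ) (n : ℕ) : ℤ := (fun x => f.eval x)^[n] α

/-- `α` is wandering for `f`: the integers `f^n(α)` are pairwise distinct. -/
def Wandering (f : Polynomial ℤ) (α : ℤ) : Prop := ∀ m n : ℕ, iter f α m = iter f α n → m = n

/-- The coefficient vectors of length `d + 1` with entries in `[-H, H]`. -/
noncomputable def Box (d H : ℕ) : Finset (Fin (d + 1) → ℤ) :=
  Fintype.piFinset fun _ => Icc (-(H : ℤ)) H

open Classical in
/-- Upper density of the set of all natural numbers with property `P`. -/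
noncomputable def upperDensity (P : ℕ → Prop) : ℝ :=
  limsup (fun N : ℕ => (((range N).filter P).card : ℝ) / N) atTop

theorem card_Box (d H : ℕ) : ((Box d H).card : ℝ) = (2 * H + 1) ^ (d + 1) := by
  unfold Box
  rw [Fintype.card_piFinset]
  simp only [Int.card_Icc, prod_const, card_univ, Fintype.card_fin, Nat.cast_pow]
  congr 1
  have : ((H : ℤ) + 1 - -(H : ℤ)).toNat = 2 * H + 1 := by omega
  rw [this]
  push_cast
  ring

theorem eval_poly {d : ℕ} (c : Fin (d + 1) → ℤ) : (fun x => (poly c).eval x) = ODn.ev c := by
  funext x
  simp [poly, ODn.ev, Polynomial.eval_finsetSum]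

theorem iter_poly {d : ℕ} (c : Fin (d + 1) → ℤ) (α : ℤ) (n : ℕ) :
    iter (poly c) α n = ODn.it c α n := by
  unfold iter ODn.it
  rw [eval_poly]

theorem wandering_poly {d : ℕ} (c : Fin (d + 1) → ℤ) (α : ℤ) :
    Wandering (poly c) α ↔ ODn.Wand c α := by
  unfold Wandering ODn.Wand
  simp only [iter_poly]

theorem upperDensity_nonneg (P : ℕ → Prop) : 0 ≤ upperDensity P := by
  classical
  unfold upperDensity
  refine le_limsup_of_frequently_le ?_ ?_
  · refine Eventually.frequently (Eventually.of_forall fun N => ?_)
    positivity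
  · refine isBoundedUnder_of ⟨1, fun N => ?_⟩
    refine div_le_one_of_le₀ ?_ (by positivity)
    have := (Finset.card_filter_le (range N) P)
    rw [card_range] at this
    exact_mod_cast this

open Classical in
/-- There is an absolute constant `C` such that for all `d ≥ 2`, all `H ≥ d^2` and every integer `α`,
with `B` the set of the `(2H+1)^(d+1)` integer polynomials of degree at most `d` with coefficients in
`[-H, H]`:
* the mean over `B` of the upper density of `{n : |f^n(α)| is prime}` (over those `f` for which `α` is
  wandering; the others count 0) is at most `C / log H`;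
* for every `ε > 0` the proportion of `f` in `B` for which `α` is wandering and this upper density is
  at least `ε` is at most `C / (ε log H)`;
* for every window `[M, M+L)` of indices with `M ≥ 1` and `L^8 ≥ 2H+1`, the average over `n` in the
  window of the proportion of `f` in `B` for which `f^n(α)` has no prime factor `p` with
  `p^8 ≤ 2H+1` is at most `C / log H`;
* for every single `n ≥ 1` this proportion is at most `7 (log H)^(-1/3)`. -/
theorem result : ∃ C : ℝ, 0 < C ∧ ∀ d H : ℕ, 2 ≤ d → d ^ 2 ≤ H → ∀ α : ℤ,
    (∑ c ∈ (Box d H).filter (fun c => Wandering (poly c) α),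
        upperDensity (fun n => Prime (iter (poly c) α n))
      ≤ C / Real.log H * (Box d H).card) ∧
    (∀ ε : ℝ, 0 < ε →
      (((Box d H).filter fun c => Wandering (poly c) α ∧
          ε ≤ upperDensity (fun n => Prime (iter (poly c) α n))).card : ℝ)
        ≤ C / Real.log H / ε * (Box d H).card) ∧
    (∀ M L : ℕ, 1 ≤ M → 2 * H + 1 ≤ L ^ 8 →
      ∑ n ∈ Ico M (M + L),
        (((Box d H).filter fun c => ∀ p : ℕ, p.Prime → p ^ 8 ≤ 2 * H + 1 →
          ¬ (p : ℤ) ∣ iter (poly c) α n).card : ℝ)
        ≤ L * (C / Real.log H * (Box d H).card)) ∧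
    (∀ n : ℕ, 1 ≤ n →
      (((Box d H).filter fun c => ∀ p : ℕ, p.Prime → p ^ 8 ≤ 2 * H + 1 →
          ¬ (p : ℤ) ∣ iter (poly c) α n).card : ℝ)
        ≤ 7 * (Real.log H) ^ (-(1 / 3) : ℝ) * (Box d H).card) := by
  obtain ⟨C, hC, hav⟩ := ODy.avga2
  refine ⟨C, hC, fun d H hd hH α => ?_⟩
  have h1 : ∑ c ∈ (Box d H).filter (fun c => Wandering (poly c) α),
        upperDensity (fun n => Prime (iter (poly c) α n))
      ≤ C / Real.log H * (Box d H).card := by
    have := ODx.pb (d := d) (H := H) α
      (C / Real.log H * (2 * H + 1) ^ (d + 1)) (hav d H hd hH α)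
    simp only [wandering_poly, iter_poly, card_Box]
    exact this
  refine ⟨h1, fun ε hε => ?_, fun M L hM hL => ?_, fun n hn => ?_⟩
  · have h2 : ε * (((Box d H).filter fun c => Wandering (poly c) α ∧
          ε ≤ upperDensity (fun n => Prime (iter (poly c) α n))).card : ℝ)
        ≤ ∑ c ∈ (Box d H).filter (fun c => Wandering (poly c) α),
          upperDensity (fun n => Prime (iter (poly c) α n)) := by
      rw [← Finset.filter_filter, mul_comm, ← nsmul_eq_mul]
      refine (Finset.card_nsmul_le_sum _ _ ε fun c hc => (Finset.mem_filter.1 hc).2).trans ?_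
      refine Finset.sum_le_sum_of_subset_of_nonneg (Finset.filter_subset _ _) fun c _ _ => ?_
      exact upperDensity_nonneg _
    rw [div_mul_eq_mul_div, le_div_iff₀ hε, mul_comm]
    exact h2.trans h1
  · have := hav d H hd hH α M L hM hL
    simp only [iter_poly, card_Box]
    exact this
  · have := ODy.sing hd hn hH α
    simp only [iter_poly, card_Box]
    exact this

end Pool.Agent.Results.MP_29b621_nt.OrbitDensity
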