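import Pool.Agent.PFO.Zero

/-!
# MP_29b621_nt: the orbit of `0` and the starting points congruent to its elements

`f^n(x)` is `(fun z : ℤ => f.eval z)^[n] x`; `ManyPrimes` is in `Pool/Agent/PFO/Defs.lean`. Let `f`
be any integer polynomial of degree at least `2` for which `0` is wandering.

(1) From some `n` on, `f^n(0)` is prime only if `n` is prime.

(2) For all `K` and `ε` there are `M` and `N0` such that for every integer `x` which is congruent
modulo `M` to some `f^j(0)` and for every `N ≥ N0` at most `ε N` of the `n < N` are such that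
`f^n(x)` has fewer than `K` distinct prime divisors; if `|x| ≥ M` then `x` is wandering.
-/

open Polynomial Pool.Agent.PFO

namespace Pool.Agent.Results.MP_29b621_nt.OrbitOfZero

theorem result (f : ℤ[X]) (hd : 2 ≤ f.natDegree)
    (h0 : Function.Injective fun n : ℕ => (fun z : ℤ => f.eval z)^[n] 0) :
    (∃ N1 : ℕ, ∀ n : ℕ, N1 ≤ n → Prime ((fun z : ℤ => f.eval z)^[n] 0) → n.Prime) ∧
    ∀ (K : ℕ) (ε : ℝ), 0 < ε → ∃ M N0 : ℕ, 0 < M ∧
      ∀ (x : ℤ) (j : ℕ), (M : ℤ) ∣ x - (fun z : ℤ => f.eval z)^[j] 0 →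
        ((M : ℤ) ≤ |x| → Function.Injective fun n : ℕ => (fun z : ℤ => f.eval z)^[n] x) ∧
        ∀ N : ℕ, N0 ≤ N →
          ((Set.ncard {n : ℕ | n < N ∧ ¬ ManyPrimes K ((fun z : ℤ => f.eval z)^[n] x)} : ℕ) : ℝ) ≤
            ε * N :=
  ⟨zero_orbit f hd h0, fun K ε hε => multiples f hd h0 K ε hε⟩

end Pool.Agent.Results.MP_29b621_nt.OrbitOfZero
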