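import Pool.Agent.PFO.Cover

/-!
# MP_29b621_nt: orbits without any prime

`f^n(x)` is `(fun z : ℤ => f.eval z)^[n] x`. If `f(0)` is not `1` or `-1`, or if `f` has no linear
term (`f = c + x^2 g(x)`) and `0` is wandering for `f`, then there is an arithmetic progression of
starting points whose orbits contain no prime at all. (The case `f(0) ≠ 1, -1` is easy; an example
for the other one is `x^2 + 1`.)
-/

open Polynomial

namespace Pool.Agent.Results.MP_29b621_nt.PrimeFreeOrbits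

theorem result (f : ℤ[X]) (hd : 2 ≤ f.natDegree)
    (h : (f.eval 0).natAbs ≠ 1 ∨ f.coeff 1 = 0 ∧
      Function.Injective fun n : ℕ => (fun z : ℤ => f.eval z)^[n] 0) :
    ∃ (M : ℕ) (a : ℤ), 0 < M ∧ ∀ x : ℤ, (M : ℤ) ∣ x - a → (M : ℤ) ≤ |x| →
      (Function.Injective fun n : ℕ => (fun z : ℤ => f.eval z)^[n] x) ∧
      ∀ n : ℕ, 1 < |(fun z : ℤ => f.eval z)^[n] x| ∧ ¬ Prime ((fun z : ℤ => f.eval z)^[n] x) :=
  Pool.Agent.PFO.main f hd h

end Pool.Agent.Results.MP_29b621_nt.PrimeFreeOrbits
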